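import Pool.Agent.Lib.MP_1d263a_an.Energy

/-!
# Lattice points of the Sierpinski carpet
-/

set_option autoImplicit false

namespace Pool.Agent.Lib.MP_1d263a_an

open Finset

/-- the standard Sierpinski carpet: the points of the unit square which are in none of the removed
open squares -/
def carpet : Set (ℝ × ℝ) :=
  {q : ℝ × ℝ | q.1 ∈ Set.Icc (0 : ℝ) 1 ∧ q.2 ∈ Set.Icc (0 : ℝ) 1 ∧
    ∀ n a b : ℕ, ¬ (((3 * (a : ℝ) + 1) / 3 ^ (n + 1) < q.1 ∧ q.1 < (3 * (a : ℝ) + 2) / 3 ^ (n + 1)) ∧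
      ((3 * (b : ℝ) + 1) / 3 ^ (n + 1) < q.2 ∧ q.2 < (3 * (b : ℝ) + 2) / 3 ^ (n + 1)))}

/-- the square `[x, x+1] × [y, y+1]`, divided by `3 ^ k`, survives the first `k` steps -/
def Alive (k x y : ℕ) : Prop :=
  x < 3 ^ k ∧ y < 3 ^ k ∧ ∀ j, ¬ (x / 3 ^ j % 3 = 1 ∧ y / 3 ^ j % 3 = 1)

theorem dX_lt (i : Fin 8) : dX i < 3 := by fin_cases i <;> simp [dX]

theorem dY_lt (i : Fin 8) : dY i < 3 := by fin_cases i <;> simp [dY]

theorem dXY (i : Fin 8) : ¬ (dX i = 1 ∧ dY i = 1) := by fin_cases i <;> simp [dX, dY]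

theorem dXY_inj {i j : Fin 8} (h1 : dX i = dX j) (h2 : dY i = dY j) : i = j := by
  revert h1 h2
  fin_cases i <;> fin_cases j <;> simp [dX, dY]

theorem Alive.sub {k x y : ℕ} (h : Alive k x y) (i : Fin 8) :
    Alive (k + 1) (3 * x + dX i) (3 * y + dY i) := by
  obtain ⟨h1, h2, h3⟩ := h
  have a := dX_lt i
  have b := dY_lt i
  refine ⟨by rw [pow_succ]; omega, by rw [pow_succ]; omega, fun j => ?_⟩
  rcases j with - | j
  · rintro ⟨c1, c2⟩
    exact dXY i ⟨by omega, by omega⟩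
  · have e1 : (3 * x + dX i) / 3 ^ (j + 1) = x / 3 ^ j := by
      rw [pow_succ', ← Nat.div_div_eq_div_mul]
      congr 1
      omega
    have e2 : (3 * y + dY i) / 3 ^ (j + 1) = y / 3 ^ j := by
      rw [pow_succ', ← Nat.div_div_eq_div_mul]
      congr 1
      omega
    rw [e1, e2]
    exact h3 j

theorem Alive.word (n : ℕ) : ∀ {k x y : ℕ}, Alive k x y → ∀ w : Fin n → Fin 8,
    Alive (k + n) (cx n w x) (cy n w y) := by
  induction n with
  | zero => intro k x y h w; exact h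
  | succ n ih =>
    intro k x y h w
    have := ih (h.sub (w 0)) (Fin.tail w)
    simpa only [cx, cy, show k + 1 + n = k + (n + 1) by ring] using this

theorem alive_zero : Alive 0 0 0 := ⟨by norm_num, by norm_num, fun j => by simp⟩

theorem word_inj (n : ℕ) : ∀ {x y x' y' : ℕ} {w w' : Fin n → Fin 8},
    cx n w x = cx n w' x' → cy n w y = cy n w' y' → x = x' ∧ y = y' ∧ w = w' := by
  induction n with
  | zero =>
    intro x y x' y' w w' h1 h2
    exact ⟨h1, h2, Subsingleton.elim _ _⟩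
  | succ n ih =>
    intro x y x' y' w w' h1 h2
    obtain ⟨e1, e2, e3⟩ := ih h1 h2
    have a := dX_lt (w 0)
    have b := dY_lt (w 0)
    have a' := dX_lt (w' 0)
    have b' := dY_lt (w' 0)
    refine ⟨by omega, by omega, ?_⟩
    have e0 : w 0 = w' 0 := dXY_inj (by omega) (by omega)
    rw [← Fin.cons_self_tail w, ← Fin.cons_self_tail w', e0, e3]

/-- lattice points -/
noncomputable def pt (k x y : ℕ) : ℝ × ℝ := ((x : ℝ) / 3 ^ k, (y : ℝ) / 3 ^ k)

theorem hole_aux {k n x a α : ℕ} (ha : a ≤ 1)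
    (h1 : (3 * (α : ℝ) + 1) / 3 ^ (n + 1) < ((x + a : ℕ) : ℝ) / 3 ^ k)
    (h2 : ((x + a : ℕ) : ℝ) / 3 ^ k < (3 * (α : ℝ) + 2) / 3 ^ (n + 1)) :
    ∃ e, k = n + 1 + e ∧ x / 3 ^ e % 3 = 1 := by
  rw [div_lt_div_iff₀ (by positivity) (by positivity)] at h1 h2
  have h1' : (3 * α + 1) * 3 ^ k < (x + a) * 3 ^ (n + 1) := by exact_mod_cast h1
  have h2' : (x + a) * 3 ^ (n + 1) < (3 * α + 2) * 3 ^ k := by exact_mod_cast h2
  rcases le_total k (n + 1) with hk | hk
  · exfalso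
    obtain ⟨e, he⟩ := Nat.exists_eq_add_of_le hk
    rw [he, pow_add, ← mul_assoc, mul_right_comm] at h1' h2'
    have h3 : 3 * α + 1 < (x + a) * 3 ^ e := Nat.lt_of_mul_lt_mul_right h1'
    have h4 : (x + a) * 3 ^ e < 3 * α + 2 := Nat.lt_of_mul_lt_mul_right h2'
    omega
  · obtain ⟨e, he⟩ := Nat.exists_eq_add_of_le hk
    refine ⟨e, he, ?_⟩
    have e3 : 3 ^ k = 3 ^ e * 3 ^ (n + 1) := by rw [he, pow_add, mul_comm]
    rw [e3, ← mul_assoc] at h1' h2'
    have h3 : (3 * α + 1) * 3 ^ e < x + a := Nat.lt_of_mul_lt_mul_right h1'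
    have h4 : x + a < (3 * α + 2) * 3 ^ e := Nat.lt_of_mul_lt_mul_right h2'
    have h5 : x / 3 ^ e = 3 * α + 1 := by
      rw [Nat.div_eq_iff (by positivity)]
      have : (3 * α + 2) * 3 ^ e = (3 * α + 1) * 3 ^ e + 3 ^ e := by ring
      constructor
      · omega
      · omega
    rw [h5]
    omega

theorem pt_mem {k x y : ℕ} (h : Alive k x y) {a b : ℕ} (ha : a ≤ 1) (hb : b ≤ 1) :
    pt k (x + a) (y + b) ∈ carpet := by
  obtain ⟨h1, h2, h3⟩ := h
  have h3k : (0 : ℝ) < 3 ^ k := by positivity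
  have hx : ((x + a : ℕ) : ℝ) ≤ 3 ^ k := by
    have : x + a ≤ 3 ^ k := by omega
    exact_mod_cast this
  have hy : ((y + b : ℕ) : ℝ) ≤ 3 ^ k := by
    have : y + b ≤ 3 ^ k := by omega
    exact_mod_cast this
  refine ⟨⟨by simp only [pt]; positivity, by simp only [pt]; exact (div_le_one h3k).2 hx⟩,
    ⟨by simp only [pt]; positivity, by simp only [pt]; exact (div_le_one h3k).2 hy⟩, ?_⟩
  rintro n α β ⟨⟨c1, c2⟩, c3, c4⟩
  obtain ⟨e, he, h5⟩ := hole_aux ha c1 c2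
  obtain ⟨e', he', h6⟩ := hole_aux hb c3 c4
  have : e = e' := by omega
  subst this
  exact h3 e ⟨h5, h6⟩

theorem center_mem {k x y : ℕ} (h : Alive k x y) :
    pt (k + 1) (3 * x + 1) (3 * y + 1) ∈ carpet :=
  pt_mem (h.sub 3) le_rfl le_rfl

theorem right_mem {k y : ℕ} (hy : y < 3 ^ k) : pt k (3 ^ k) y ∈ carpet := by
  have h3 : 0 < 3 ^ k := by positivity
  have hA : Alive k (3 ^ k - 1) y := by
    refine ⟨by omega, hy, fun j => ?_⟩
    rintro ⟨h1, -⟩
    rcases lt_or_ge j k with hj | hj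
    · obtain ⟨e, he⟩ := Nat.exists_eq_add_of_lt hj
      have h2 : (3 ^ k - 1) / 3 ^ j = 3 ^ (e + 1) - 1 := by
        rw [he, show j + e + 1 = j + (e + 1) by ring, pow_add]
        have hp : 0 < 3 ^ j := by positivity
        have hq : 0 < 3 ^ (e + 1) := by positivity
        rw [Nat.div_eq_iff hp]
        obtain ⟨q, hq'⟩ : ∃ q, 3 ^ (e + 1) = q + 1 := ⟨3 ^ (e + 1) - 1, by omega⟩
        rw [hq', Nat.add_sub_cancel]
        have : 3 ^ j * (q + 1) = q * 3 ^ j + 3 ^ j := by ring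
        constructor
        · omega
        · omega
      rw [h2, pow_succ] at h1
      have : 0 < 3 ^ e := by positivity
      omega
    · have : (3 ^ k - 1) / 3 ^ j = 0 :=
        Nat.div_eq_of_lt (lt_of_lt_of_le (by omega) (Nat.pow_le_pow_right (by norm_num) hj))
      rw [this] at h1
      omega
  have := pt_mem hA (a := 1) (b := 0) le_rfl (by norm_num)
  rwa [Nat.sub_add_cancel h3] at this

theorem left_mem {k y : ℕ} (hy : y < 3 ^ k) : pt k 0 y ∈ carpet := by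
  have hA : Alive k 0 y := ⟨by positivity, hy, fun j => by simp⟩
  simpa using pt_mem hA (a := 0) (b := 0) (by norm_num) (by norm_num)

theorem dist_center_corner {k x y x' y' a b : ℕ} (h : ¬ (x = x' ∧ y = y')) (ha : a ≤ 1)
    (hb : b ≤ 1) :
    dist (pt (k + 1) (3 * x + 1) (3 * y + 1)) (pt k (x + a) (y + b)) ≤
      1 * dist (pt (k + 1) (3 * x + 1) (3 * y + 1)) (pt (k + 1) (3 * x' + 1) (3 * y' + 1)) := by
  have h3k : (0 : ℝ) < 3 ^ (k + 1) := by positivity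
  have key : ∀ u c : ℕ, c ≤ 1 →
      dist (((3 * u + 1 : ℕ) : ℝ) / 3 ^ (k + 1)) (((u + c : ℕ) : ℝ) / 3 ^ k) ≤ 2 / 3 ^ (k + 1) := by
    intro u c hc
    have e : ((u + c : ℕ) : ℝ) / 3 ^ k = (3 * (u + c : ℕ)) / 3 ^ (k + 1) := by
      rw [pow_succ]
      field_simp
    rw [e, Real.dist_eq, ← sub_div, abs_div, abs_of_pos h3k]
    refine div_le_div_of_nonneg_right ?_ h3k.le
    have hc' : c = 0 ∨ c = 1 := by omega
    rcases hc' with rfl | rfl
    · push_cast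
      rw [abs_le]
      constructor <;> linarith
    · push_cast
      rw [abs_le]
      constructor <;> linarith
  have key2 : ∀ u u' : ℕ, u ≠ u' → 3 / 3 ^ (k + 1) ≤
      dist (((3 * u + 1 : ℕ) : ℝ) / 3 ^ (k + 1)) (((3 * u' + 1 : ℕ) : ℝ) / 3 ^ (k + 1)) := by
    intro u u' hu
    rw [Real.dist_eq, ← sub_div, abs_div, abs_of_pos h3k]
    refine div_le_div_of_nonneg_right ?_ h3k.le
    have : (1 : ℤ) ≤ |(u : ℤ) - u'| := Int.one_le_abs (by omega)
    have h1 : (1 : ℝ) ≤ |(u : ℝ) - u'| := by exact_mod_cast this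
    have h2 : (((3 * u + 1 : ℕ) : ℝ) - ((3 * u' + 1 : ℕ) : ℝ)) = 3 * ((u : ℝ) - u') := by
      push_cast; ring
    rw [h2, abs_mul, abs_of_pos (by norm_num : (0 : ℝ) < 3)]
    linarith
  rw [one_mul, Prod.dist_eq, Prod.dist_eq]
  simp only [pt]
  have hle : (2 : ℝ) / 3 ^ (k + 1) ≤ 3 / 3 ^ (k + 1) :=
    div_le_div_of_nonneg_right (by norm_num) h3k.le
  refine (max_le (key x a ha) (key y b hb)).trans (hle.trans ?_)
  by_cases hx : x = x'
  · exact (key2 y y' fun hy => h ⟨hx, hy⟩).trans (le_max_right _ _)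
  · exact (key2 x x' hx).trans (le_max_left _ _)

theorem center_ne_corner {k x y a b : ℕ} :
    pt (k + 1) (3 * x + 1) (3 * y + 1) ≠ pt k (x + a) (y + b) := by
  intro h
  have h1 := congrArg Prod.fst h
  simp only [pt] at h1
  rw [pow_succ, div_eq_div_iff (by positivity) (by positivity)] at h1
  have h3k : (0 : ℝ) < 3 ^ k := by positivity
  have h2 : (((3 * x + 1 : ℕ) : ℝ)) = ((x + a : ℕ) : ℝ) * 3 := by
    have : ((3 * x + 1 : ℕ) : ℝ) * 3 ^ k = (((x + a : ℕ) : ℝ) * 3) * 3 ^ k := by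
      rw [h1]; ring
    exact mul_right_cancel₀ h3k.ne' this
  have h3 : 3 * x + 1 = (x + a) * 3 := by exact_mod_cast h2
  omega

end Pool.Agent.Lib.MP_1d263a_an
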