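import Pool.Agent.Lib.MP_1d263a_an.Flow

/-!
# Energy estimates for the self-similar flow
-/

set_option autoImplicit false

namespace Pool.Agent.Lib.MP_1d263a_an

open Finset

theorem G2_nonneg (x : Fl) : 0 ≤ G2 x := by unfold G2; positivity

theorem G4_nonneg (x : Fl) : 0 ≤ G4 x := by unfold G4; positivity

theorem G2_words (n : ℕ) : ∀ x : Fl, ∑ w, G2 (fl n w x) ≤ (1321 / 1000) ^ n * G2 x := by
  induction n with
  | zero => intro x; simp [fl]
  | succ n ih =>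
    intro x
    rw [sum_words]
    calc ∑ i, ∑ w, G2 (fl (n + 1) (Fin.cons i w) x)
        = ∑ i, ∑ w, G2 (fl n w (sub i x)) := by
          simp only [fl, Fin.cons_zero, Fin.tail_cons]
      _ ≤ ∑ i, (1321 / 1000) ^ n * G2 (sub i x) := sum_le_sum fun i _ => ih _
      _ = (1321 / 1000) ^ n * ∑ i, G2 (sub i x) := by rw [mul_sum]
      _ ≤ (1321 / 1000) ^ n * (1321 / 1000 * G2 x) :=
          mul_le_mul_of_nonneg_left (G2_sub x) (by positivity)
      _ = _ := by ring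

theorem G4_words (n : ℕ) : ∀ x : Fl, ∑ w, G4 (fl n w x) ≤ (531 / 2000) ^ n * G4 x := by
  induction n with
  | zero => intro x; simp [fl]
  | succ n ih =>
    intro x
    rw [sum_words]
    calc ∑ i, ∑ w, G4 (fl (n + 1) (Fin.cons i w) x)
        = ∑ i, ∑ w, G4 (fl n w (sub i x)) := by
          simp only [fl, Fin.cons_zero, Fin.tail_cons]
      _ ≤ ∑ i, (531 / 2000) ^ n * G4 (sub i x) := sum_le_sum fun i _ => ih _
      _ = (531 / 2000) ^ n * ∑ i, G4 (sub i x) := by rw [mul_sum]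
      _ ≤ (531 / 2000) ^ n * (531 / 2000 * G4 x) :=
          mul_le_mul_of_nonneg_left (G4_sub x) (by positivity)
      _ = _ := by ring

/-- total flow through a square -/
noncomputable def tot (x : Fl) : ℝ := |x.s + x.h| + |x.v - x.s|

theorem tot_nonneg (x : Fl) : 0 ≤ tot x := by unfold tot; positivity

theorem tot_sq (x : Fl) : tot x ^ 2 ≤ 12 * G2 x := by
  unfold tot G2
  have h1 := sq_abs (x.s + x.h)
  have h2 := sq_abs (x.v - x.s)
  have h3 : (|x.s + x.h| + |x.v - x.s|) ^ 2 ≤ 2 * |x.s + x.h| ^ 2 + 2 * |x.v - x.s| ^ 2 := by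
    nlinarith [sq_nonneg (|x.s + x.h| - |x.v - x.s|)]
  have h4 : (x.s + x.h) ^ 2 ≤ 2 * x.s ^ 2 + 2 * x.h ^ 2 := by nlinarith [sq_nonneg (x.s - x.h)]
  have h5 : (x.v - x.s) ^ 2 ≤ 2 * x.v ^ 2 + 2 * x.s ^ 2 := by nlinarith [sq_nonneg (x.v + x.s)]
  nlinarith [sq_nonneg x.h, sq_nonneg x.v, sq_nonneg x.s]

theorem tot_four (x : Fl) : tot x ^ 4 ≤ 1000 * G4 x := by
  have h1 : G2 x ^ 2 ≤ 3 * G4 x := by
    unfold G2 G4
    have h1 : 0 ≤ x.h ^ 4 := by positivity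
    have h2 : 0 ≤ x.v ^ 4 := by positivity
    have h3 : 0 ≤ x.s ^ 4 := by positivity
    have h4 : 0 ≤ x.h ^ 2 * x.v ^ 2 := by positivity
    have h5 : 0 ≤ x.h ^ 2 * x.s ^ 2 := by positivity
    have h6 : 0 ≤ x.v ^ 2 * x.s ^ 2 := by positivity
    have h7 : 0 ≤ (x.h ^ 2 - x.v ^ 2) ^ 2 := by positivity
    nlinarith
  have h2 := tot_sq x
  have h3 : tot x ^ 4 ≤ (12 * G2 x) ^ 2 := by
    have : tot x ^ 4 = (tot x ^ 2) ^ 2 := by ring
    rw [this]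
    exact pow_le_pow_left₀ (by positivity) h2 2
  have h4 := G4_nonneg x
  nlinarith

/-- the `87/37`-energy tends to zero -/
theorem energy_bound (n : ℕ) (x : Fl) :
    ∑ w, tot (fl n w x) ^ (87 / 37 : ℝ) ≤
      (12 * ((1321 / 1000) ^ n * G2 x)) ^ (61 / 74 : ℝ) *
        (1000 * ((531 / 2000) ^ n * G4 x)) ^ (13 / 74 : ℝ) := by
  have hpq : (74 / 61 : ℝ).HolderConjugate (74 / 13 : ℝ) := by
    rw [Real.holderConjugate_iff]
    norm_num
  have h := Real.inner_le_Lp_mul_Lq_of_nonneg (univ : Finset (Fin n → Fin 8)) hpq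
    (f := fun w => (tot (fl n w x) ^ 2) ^ (61 / 74 : ℝ))
    (g := fun w => (tot (fl n w x) ^ 4) ^ (13 / 74 : ℝ))
    (fun w _ => by positivity) (fun w _ => by positivity)
  have e1 : ∀ w : Fin n → Fin 8, (tot (fl n w x) ^ 2) ^ (61 / 74 : ℝ) *
      (tot (fl n w x) ^ 4) ^ (13 / 74 : ℝ) = tot (fl n w x) ^ (87 / 37 : ℝ) := by
    intro w
    have h0 := tot_nonneg (fl n w x)
    rw [← Real.rpow_natCast (tot (fl n w x)) 2, ← Real.rpow_natCast (tot (fl n w x)) 4,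
      ← Real.rpow_mul h0, ← Real.rpow_mul h0]
    rcases h0.eq_or_lt with h1 | h1
    · rw [← h1]
      rw [Real.zero_rpow (by norm_num), Real.zero_rpow (by norm_num)]
      simp
    · rw [← Real.rpow_add h1]
      norm_num
  have e2 : ∀ w : Fin n → Fin 8,
      ((tot (fl n w x) ^ 2) ^ (61 / 74 : ℝ)) ^ (74 / 61 : ℝ) = tot (fl n w x) ^ 2 := by
    intro w
    rw [← Real.rpow_mul (by positivity)]
    norm_num
  have e3 : ∀ w : Fin n → Fin 8,
      ((tot (fl n w x) ^ 4) ^ (13 / 74 : ℝ)) ^ (74 / 13 : ℝ) = tot (fl n w x) ^ 4 := by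
    intro w
    rw [← Real.rpow_mul (by positivity)]
    norm_num
  simp only [e1, e2, e3] at h
  refine h.trans ?_
  have b1 : ∑ w, tot (fl n w x) ^ 2 ≤ 12 * ((1321 / 1000) ^ n * G2 x) := by
    calc ∑ w, tot (fl n w x) ^ 2 ≤ ∑ w, 12 * G2 (fl n w x) := sum_le_sum fun w _ => tot_sq _
      _ = 12 * ∑ w, G2 (fl n w x) := by rw [mul_sum]
      _ ≤ _ := mul_le_mul_of_nonneg_left (G2_words n x) (by norm_num)
  have b2 : ∑ w, tot (fl n w x) ^ 4 ≤ 1000 * ((531 / 2000) ^ n * G4 x) := by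
    calc ∑ w, tot (fl n w x) ^ 4 ≤ ∑ w, 1000 * G4 (fl n w x) := sum_le_sum fun w _ => tot_four _
      _ = 1000 * ∑ w, G4 (fl n w x) := by rw [mul_sum]
      _ ≤ _ := mul_le_mul_of_nonneg_left (G4_words n x) (by norm_num)
  have c1 : (1 / (74 / 61) : ℝ) = 61 / 74 := by norm_num
  have c2 : (1 / (74 / 13) : ℝ) = 13 / 74 := by norm_num
  rw [c1, c2]
  have d1 : 0 ≤ ∑ w : Fin n → Fin 8, tot (fl n w x) ^ 2 := sum_nonneg fun w _ => by positivity
  have d2 : 0 ≤ ∑ w : Fin n → Fin 8, tot (fl n w x) ^ 4 := sum_nonneg fun w _ => by positivity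
  exact mul_le_mul (Real.rpow_le_rpow d1 b1 (by norm_num)) (Real.rpow_le_rpow d2 b2 (by norm_num))
    (Real.rpow_nonneg d2 _) (Real.rpow_nonneg (d1.trans b1) _)

/-- the `87/37`-energy tends to zero, explicit form -/
theorem energy_bound' : ∃ K θ : ℝ, 0 ≤ K ∧ 0 < θ ∧ θ < 1 ∧ ∀ n : ℕ,
    ∑ w, tot (fl n w ⟨1, 0, 0⟩) ^ (87 / 37 : ℝ) ≤ K * θ ^ n := by
  refine ⟨(12 : ℝ) ^ (61 / 74 : ℝ) * (1000 : ℝ) ^ (13 / 74 : ℝ),
    (1321 / 1000 : ℝ) ^ (61 / 74 : ℝ) * (531 / 2000 : ℝ) ^ (13 / 74 : ℝ), by positivity,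
    by positivity, ?_, fun n => ?_⟩
  · have h1 : (((1321 / 1000 : ℝ) ^ (61 / 74 : ℝ) * (531 / 2000 : ℝ) ^ (13 / 74 : ℝ)) ^ (74 : ℕ)) =
        (1321 / 1000 : ℝ) ^ (61 : ℕ) * (531 / 2000 : ℝ) ^ (13 : ℕ) := by
      rw [mul_pow, ← Real.rpow_natCast, ← Real.rpow_natCast, ← Real.rpow_mul (by norm_num),
        ← Real.rpow_mul (by norm_num), ← Real.rpow_natCast, ← Real.rpow_natCast]
      norm_num
    by_contra hc
    push Not at hc
    have h2 : (1 : ℝ) ≤ ((1321 / 1000 : ℝ) ^ (61 / 74 : ℝ) *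
        (531 / 2000 : ℝ) ^ (13 / 74 : ℝ)) ^ (74 : ℕ) := one_le_pow₀ hc
    rw [h1] at h2
    norm_num at h2
  · refine (energy_bound n ⟨1, 0, 0⟩).trans (le_of_eq ?_)
    have g2 : G2 ⟨1, 0, 0⟩ = 1 := by simp [G2]
    have g4 : G4 ⟨1, 0, 0⟩ = 1 := by simp [G4]
    rw [g2, g4, mul_one, mul_one, Real.mul_rpow (by norm_num) (by positivity),
      Real.mul_rpow (by norm_num) (by positivity), mul_pow,
      ← Real.rpow_natCast ((1321 / 1000 : ℝ) ^ (61 / 74 : ℝ)),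
      ← Real.rpow_natCast ((531 / 2000 : ℝ) ^ (13 / 74 : ℝ)),
      ← Real.rpow_mul (by norm_num), ← Real.rpow_mul (by norm_num),
      ← Real.rpow_natCast (1321 / 1000 : ℝ) n, ← Real.rpow_natCast (531 / 2000 : ℝ) n,
      ← Real.rpow_mul (by norm_num), ← Real.rpow_mul (by norm_num),
      mul_comm (n : ℝ) (61 / 74), mul_comm (n : ℝ) (13 / 74)]
    ring

end Pool.Agent.Lib.MP_1d263a_an
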