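import Mathlib

/-!
# A self-similar flow on the Sierpinski carpet

`(h, v, s)` describes a flow through a square: outflow `s - h` through the left side, `s + h`
through the right side, `v - s` through the upper side, `-v - s` through the lower side.
`sub i` is the flow through the `i`-th of the eight subsquares when the flow through each side is
spread uniformly over its three thirds.
-/

set_option autoImplicit false

namespace Pool.Agent.Lib.MP_1d263a_an

open Finset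

/-- horizontal digit of the `i`-th subsquare -/
def dX : Fin 8 → ℕ := ![0, 2, 2, 0, 1, 1, 2, 0]

/-- vertical digit of the `i`-th subsquare -/
def dY : Fin 8 → ℕ := ![2, 2, 0, 0, 2, 0, 1, 1]

/-- flows through a square -/
structure Fl where
  /-- horizontal part -/
  h : ℝ
  /-- vertical part -/
  v : ℝ
  /-- squeezing part -/
  s : ℝ

/-- the flow through the `i`-th subsquare -/
noncomputable def sub (i : Fin 8) (x : Fl) : Fl :=
  match i with
  | 0 => ⟨(5 * x.h + x.v - 3 * x.s) / 12, (x.h + 5 * x.v - 3 * x.s) / 12,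
      (x.h + x.v + x.s) / 12⟩
  | 1 => ⟨(5 * x.h - x.v + 3 * x.s) / 12, (-x.h + 5 * x.v - 3 * x.s) / 12,
      (-x.h + x.v + x.s) / 12⟩
  | 2 => ⟨(5 * x.h + x.v + 3 * x.s) / 12, (x.h + 5 * x.v + 3 * x.s) / 12,
      (-x.h - x.v + x.s) / 12⟩
  | 3 => ⟨(5 * x.h - x.v - 3 * x.s) / 12, (-x.h + 5 * x.v + 3 * x.s) / 12,
      (x.h - x.v + x.s) / 12⟩
  | 4 => ⟨x.h / 2, (x.v - x.s) / 6, (x.s - x.v) / 6⟩
  | 5 => ⟨x.h / 2, (x.v + x.s) / 6, (x.s + x.v) / 6⟩
  | 6 => ⟨(x.h + x.s) / 6, x.v / 2, (x.s + x.h) / 6⟩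
  | 7 => ⟨(x.h - x.s) / 6, x.v / 2, (x.s - x.h) / 6⟩

/-- horizontal position of the square with the address `w` -/
def cx : (n : ℕ) → (Fin n → Fin 8) → ℕ → ℕ
  | 0, _, X => X
  | n + 1, w, X => cx n (Fin.tail w) (3 * X + dX (w 0))

/-- vertical position of the square with the address `w` -/
def cy : (n : ℕ) → (Fin n → Fin 8) → ℕ → ℕ
  | 0, _, Y => Y
  | n + 1, w, Y => cy n (Fin.tail w) (3 * Y + dY (w 0))

/-- flow through the square with the address `w` -/
noncomputable def fl : (n : ℕ) → (Fin n → Fin 8) → Fl → Fl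
  | 0, _, x => x
  | n + 1, w, x => fl n (Fin.tail w) (sub (w 0) x)

theorem sum_words {n : ℕ} (F : (Fin (n + 1) → Fin 8) → ℝ) :
    ∑ w, F w = ∑ i, ∑ w, F (Fin.cons i w) := by
  rw [← (Fin.consEquiv (fun _ => Fin 8)).sum_comp, Fintype.sum_prod_type]
  rfl

variable (U : ℕ → ℕ → ℕ → ℝ)

/-- averages over the bottom side -/
noncomputable def avgH : ℕ → ℕ → ℕ → ℕ → ℝ
  | 0, k, X, Y => U k X Y
  | n + 1, k, X, Y => (avgH n (k + 1) (3 * X) (3 * Y) + avgH n (k + 1) (3 * X + 1) (3 * Y) +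
      avgH n (k + 1) (3 * X + 2) (3 * Y)) / 3

/-- averages over the left side -/
noncomputable def avgV : ℕ → ℕ → ℕ → ℕ → ℝ
  | 0, k, X, Y => U k X Y
  | n + 1, k, X, Y => (avgV n (k + 1) (3 * X) (3 * Y) + avgV n (k + 1) (3 * X) (3 * Y + 1) +
      avgV n (k + 1) (3 * X) (3 * Y + 2)) / 3

/-- the boundary sum of a square -/
noncomputable def bs (n k X Y : ℕ) (x : Fl) : ℝ :=
  (x.s - x.h) * avgV U n k X Y + (x.s + x.h) * avgV U n k (X + 1) Y +
    (-x.v - x.s) * avgH U n k X Y + (x.v - x.s) * avgH U n k X (Y + 1)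

theorem bs_succ (n k X Y : ℕ) (x : Fl) :
    bs U (n + 1) k X Y x = ∑ i, bs U n (k + 1) (3 * X + dX i) (3 * Y + dY i) (sub i x) := by
  have e1 : 3 * (X + 1) = 3 * X + 2 + 1 := by ring
  have e2 : 3 * (Y + 1) = 3 * Y + 2 + 1 := by ring
  simp only [Fin.sum_univ_eight, bs, avgH, avgV, sub, dX, dY, Matrix.cons_val, e1, e2, add_zero]
  have a1 : 3 * X + 1 + 1 = 3 * X + 2 := rfl
  have a2 : 3 * Y + 1 + 1 = 3 * Y + 2 := rfl
  rw [a1, a2]
  ring

theorem bs_words (n : ℕ) : ∀ (k X Y : ℕ) (x : Fl),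
    bs U n k X Y x = ∑ w, bs U 0 (k + n) (cx n w X) (cy n w Y) (fl n w x) := by
  induction n with
  | zero => intro k X Y x; simp [cx, cy, fl]
  | succ n ih =>
    intro k X Y x
    rw [bs_succ, sum_words]
    refine sum_congr rfl fun i _ => ?_
    rw [ih]
    refine sum_congr rfl fun w _ => ?_
    simp only [cx, cy, fl, Fin.cons_zero, Fin.tail_cons]
    rw [show k + 1 + n = k + (n + 1) by ring]

theorem bs_zero (k X Y : ℕ) (x : Fl) :
    bs U 0 k X Y x = (x.s + x.h) * (U k (X + 1) Y - U k X Y) +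
      (x.v - x.s) * (U k X (Y + 1) - U k X Y) := by
  simp only [bs, avgH, avgV]
  ring

theorem avgV_ge {D : ℝ} (hU : ∀ k Y, Y < 3 ^ k → D ≤ U k (3 ^ k) Y) (n : ℕ) :
    ∀ k Y, Y < 3 ^ k → D ≤ avgV U n k (3 ^ k) Y := by
  induction n with
  | zero => intro k Y hY; exact hU k Y hY
  | succ n ih =>
    intro k Y hY
    have e : 3 * 3 ^ k = 3 ^ (k + 1) := by ring
    have h0 := ih (k + 1) (3 * Y) (by omega)
    have h1 := ih (k + 1) (3 * Y + 1) (by omega)
    have h2 := ih (k + 1) (3 * Y + 2) (by omega)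
    simp only [avgV, e]
    linarith

theorem avgV_zero (hU : ∀ k Y, U k 0 Y = 0) (n : ℕ) : ∀ k Y, avgV U n k 0 Y = 0 := by
  induction n with
  | zero => intro k Y; exact hU k Y
  | succ n ih => intro k Y; simp [avgV, ih]

/-! ### energies -/

/-- quadratic energy -/
noncomputable def G2 (x : Fl) : ℝ := x.h ^ 2 + x.v ^ 2 + 517 / 1000 * x.s ^ 2

/-- quartic energy -/
noncomputable def G4 (x : Fl) : ℝ := x.h ^ 4 + x.v ^ 4 + 1374 / 1000 * (x.h ^ 2 * x.v ^ 2) +
  1663 / 1000 * (x.s ^ 2 * (x.h ^ 2 + x.v ^ 2)) + 255 / 1000 * x.s ^ 4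

theorem G2_sub (x : Fl) : ∑ i, G2 (sub i x) ≤ 1321 / 1000 * G2 x := by
  simp only [Fin.sum_univ_eight, sub, G2]
  nlinarith [sq_nonneg x.h, sq_nonneg x.v, sq_nonneg x.s]

theorem G4_sub (x : Fl) : ∑ i, G4 (sub i x) ≤ 531 / 2000 * G4 x := by
  simp only [Fin.sum_univ_eight, sub, G4]
  have h1 : 0 ≤ x.h ^ 4 := by positivity
  have h2 : 0 ≤ x.v ^ 4 := by positivity
  have h3 : 0 ≤ x.s ^ 4 := by positivity
  have h4 : 0 ≤ x.h ^ 2 * x.v ^ 2 := by positivity
  have h5 : 0 ≤ x.h ^ 2 * x.s ^ 2 := by positivity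
  have h6 : 0 ≤ x.v ^ 2 * x.s ^ 2 := by positivity
  linarith [h1, h2, h3, h4, h5, h6]

end Pool.Agent.Lib.MP_1d263a_an
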