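import Pool.Agent.Lib.MP_1d263a_an.Carpet

/-!
# Quasisymmetric images of the Sierpinski carpet: the lower bound for the exponent
-/

set_option autoImplicit false

namespace Pool.Agent.Lib.MP_1d263a_an

open MeasureTheory Filter Topology
open scoped ENNReal

section

variable {X : Type*} [MetricSpace X] {f : carpet ≃ X} {H : ℝ}

/-- weak quasisymmetry -/
def WQS (f : carpet ≃ X) (H : ℝ) : Prop :=
  ∀ x a b : carpet, dist x a ≤ 1 * dist x b → dist (f x) (f a) ≤ H * dist (f x) (f b)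

/-- the origin -/
noncomputable def p0 : carpet := ⟨pt 0 0 0, left_mem (by norm_num)⟩

/-- the point `(1, 0)` -/
noncomputable def p1 : carpet := ⟨pt 0 1 0, right_mem (k := 0) (by norm_num)⟩

theorem dist_le_one (a b : carpet) : dist a b ≤ 1 := by
  rw [Subtype.dist_eq, Prod.dist_eq]
  exact max_le (Real.dist_le_of_mem_Icc_01 a.2.1 b.2.1) (Real.dist_le_of_mem_Icc_01 a.2.2.1 b.2.2.1)

theorem one_le_dist {a b : carpet} (ha : a.1.1 = 0) (hb : b.1.1 = 1) : 1 ≤ dist a b := by
  rw [Subtype.dist_eq, Prod.dist_eq]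
  refine le_trans ?_ (le_max_left _ _)
  rw [ha, hb, Real.dist_eq]
  norm_num

theorem p0_fst : p0.1.1 = 0 := by simp [p0, pt]

theorem p1_fst : p1.1.1 = 1 := by simp [p1, pt]

theorem dist_p0_p1_pos (f : carpet ≃ X) : 0 < dist (f p0) (f p1) := by
  rw [dist_pos]
  intro h
  have h1 := f.injective h
  have h2 := congrArg (fun q : carpet => q.1.1) h1
  simp only [p0_fst, p1_fst] at h2
  norm_num at h2

theorem one_le_H (hf : WQS f H) : 1 ≤ H := by
  have h1 := hf p0 p1 p1 (by simp)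
  have h2 := dist_p0_p1_pos f
  by_contra hc
  nlinarith [not_le.1 hc]

theorem lr (hf : WQS f H) {a b : carpet} (ha : a.1.1 = 0) (hb : b.1.1 = 1) :
    dist (f p0) (f p1) / (2 * H) ≤ dist (f b) (f a) := by
  have hH := one_le_H hf
  have h1 := one_le_dist ha hb
  have h2 := hf a p0 b (by rw [one_mul]; exact (dist_le_one _ _).trans h1)
  have h3 := hf a p1 b (by rw [one_mul]; exact (dist_le_one _ _).trans h1)
  have h4 := dist_triangle_left (f p0) (f p1) (f a)
  rw [div_le_iff₀ (by linarith), dist_comm (f b)]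
  linarith

theorem bdd (hf : WQS f H) : Bornology.IsBounded (Set.univ : Set X) := by
  rw [Metric.isBounded_iff_subset_closedBall (f p0)]
  refine ⟨H * dist (f p0) (f p1), fun y _ => ?_⟩
  obtain ⟨z, rfl⟩ := f.surjective y
  rw [Metric.mem_closedBall, dist_comm]
  exact hf p0 z p1 (by rw [one_mul]; exact (dist_le_one _ _).trans (one_le_dist p0_fst p1_fst))

theorem dist_le_diam (hf : WQS f H) (a b : X) : dist a b ≤ Metric.diam (Set.univ : Set X) :=
  Metric.dist_le_diam_of_mem (bdd hf) (Set.mem_univ _) (Set.mem_univ _)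

/-- the image of the left side -/
def lside (f : carpet ≃ X) : Set X := f '' {q : carpet | q.1.1 = 0}

/-- distance to the image of the left side -/
noncomputable def uu (f : carpet ≃ X) (q : carpet) : ℝ := Metric.infDist (f q) (lside f)

theorem uu_lip (f : carpet ≃ X) (a b : carpet) : |uu f a - uu f b| ≤ dist (f a) (f b) := by
  have := (Metric.lipschitz_infDist_pt (lside f)).dist_le_mul (f a) (f b)
  simpa [Real.dist_eq, uu] using this

open scoped Classical in
/-- `uu` as a function of lattice points -/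
noncomputable def UU (f : carpet ≃ X) (k x y : ℕ) : ℝ :=
  if h : pt k x y ∈ carpet then uu f ⟨pt k x y, h⟩ else 0

theorem UU_of {f : carpet ≃ X} {k x y : ℕ} (h : pt k x y ∈ carpet) :
    UU f k x y = uu f ⟨pt k x y, h⟩ := by
  unfold UU
  rw [dif_pos h]

theorem UU_left (f : carpet ≃ X) (k y : ℕ) : UU f k 0 y = 0 := by
  by_cases h : pt k 0 y ∈ carpet
  · rw [UU_of h]
    exact Metric.infDist_zero_of_mem ⟨_, by simp [pt], rfl⟩
  · unfold UU
    rw [dif_neg h]

theorem UU_right (hf : WQS f H) (k y : ℕ) (hy : y < 3 ^ k) :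
    dist (f p0) (f p1) / (2 * H) ≤ UU f k (3 ^ k) y := by
  rw [UU_of (right_mem hy)]
  have hne : (lside f).Nonempty := ⟨_, p0, p0_fst, rfl⟩
  unfold uu
  rw [Metric.le_infDist hne]
  rintro _ ⟨a, ha, rfl⟩
  refine lr hf ha ?_
  simp [pt]

variable {n : ℕ}

theorem hA (w : Fin n → Fin 8) : Alive n (cx n w 0) (cy n w 0) := by
  have := alive_zero.word n w
  rwa [zero_add] at this

/-- the center of the square `w` -/
noncomputable def zz (w : Fin n → Fin 8) : carpet := ⟨_, center_mem (hA w)⟩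

/-- corners of the square `w` -/
noncomputable def cc (w : Fin n → Fin 8) (a b : ℕ) (ha : a ≤ 1) (hb : b ≤ 1) : carpet :=
  ⟨_, pt_mem (hA w) ha hb⟩

/-- radius of the square `w` -/
noncomputable def RR (f : carpet ≃ X) (w : Fin n → Fin 8) : ℝ :=
  max (dist (f (zz w)) (f (cc w 0 0 (by norm_num) (by norm_num))))
    (max (dist (f (zz w)) (f (cc w 1 0 (by norm_num) (by norm_num))))
      (dist (f (zz w)) (f (cc w 0 1 (by norm_num) (by norm_num)))))

theorem RR_pos (f : carpet ≃ X) (w : Fin n → Fin 8) : 0 < RR f w := by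
  refine lt_of_lt_of_le ?_ (le_max_left _ _)
  rw [dist_pos]
  intro h
  have h1 := congrArg Subtype.val (f.injective h)
  exact center_ne_corner h1

theorem leaf (f : carpet ≃ X) (w : Fin n → Fin 8) (x : Fl) :
    bs (UU f) 0 n (cx n w 0) (cy n w 0) x ≤ 2 * (tot x * RR f w) := by
  rw [bs_zero]
  have e00 : UU f n (cx n w 0) (cy n w 0) = uu f (cc w 0 0 (by norm_num) (by norm_num)) :=
    UU_of _
  have e10 : UU f n (cx n w 0 + 1) (cy n w 0) = uu f (cc w 1 0 (by norm_num) (by norm_num)) :=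
    UU_of _
  have e01 : UU f n (cx n w 0) (cy n w 0 + 1) = uu f (cc w 0 1 (by norm_num) (by norm_num)) :=
    UU_of _
  rw [e00, e10, e01]
  have r00 : dist (f (zz w)) (f (cc w 0 0 (by norm_num) (by norm_num))) ≤ RR f w := le_max_left _ _
  have r10 : dist (f (zz w)) (f (cc w 1 0 (by norm_num) (by norm_num))) ≤ RR f w :=
    (le_max_left _ _).trans (le_max_right _ _)
  have r01 : dist (f (zz w)) (f (cc w 0 1 (by norm_num) (by norm_num))) ≤ RR f w :=
    (le_max_right _ _).trans (le_max_right _ _)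
  have d1 : |uu f (cc w 1 0 (by norm_num) (by norm_num)) -
      uu f (cc w 0 0 (by norm_num) (by norm_num))| ≤ 2 * RR f w := by
    refine (uu_lip f _ _).trans ((dist_triangle_left _ _ (f (zz w))).trans ?_)
    linarith
  have d2 : |uu f (cc w 0 1 (by norm_num) (by norm_num)) -
      uu f (cc w 0 0 (by norm_num) (by norm_num))| ≤ 2 * RR f w := by
    refine (uu_lip f _ _).trans ((dist_triangle_left _ _ (f (zz w))).trans ?_)
    linarith
  refine (add_le_add (le_abs_self _) (le_abs_self _)).trans ?_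
  rw [abs_mul, abs_mul]
  have m1 := mul_le_mul_of_nonneg_left d1 (abs_nonneg (x.s + x.h))
  have m2 := mul_le_mul_of_nonneg_left d2 (abs_nonneg (x.v - x.s))
  unfold tot
  linarith

theorem main_sum (hf : WQS f H) (n : ℕ) :
    dist (f p0) (f p1) / (2 * H) ≤
      2 * ∑ w : Fin n → Fin 8, tot (fl n w ⟨1, 0, 0⟩) * RR f w := by
  have h1 := bs_words (UU f) n 0 0 0 ⟨1, 0, 0⟩
  have h2 := avgV_ge (UU f) (D := dist (f p0) (f p1) / (2 * H)) (UU_right hf) n 0 0 (by norm_num)
  have h3 := avgV_zero (UU f) (UU_left f) n 0 0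
  rw [pow_zero] at h2
  have h4 : avgV (UU f) n 0 1 0 = bs (UU f) n 0 0 0 ⟨1, 0, 0⟩ := by
    simp only [bs, h3]
    ring
  rw [h4, h1] at h2
  refine h2.trans ?_
  rw [Finset.mul_sum]
  refine Finset.sum_le_sum fun w _ => ?_
  have := leaf f w (fl n w ⟨1, 0, 0⟩)
  rwa [zero_add]

theorem RR_le (hf : WQS f H) {w w' : Fin n → Fin 8} (h : w ≠ w') :
    RR f w ≤ H * dist (f (zz w)) (f (zz w')) := by
  have hne : ¬ (cx n w 0 = cx n w' 0 ∧ cy n w 0 = cy n w' 0) := fun h1 =>
    h (word_inj n h1.1 h1.2).2.2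
  refine max_le ?_ (max_le ?_ ?_)
  · exact hf _ _ _ (dist_center_corner hne (by norm_num) (by norm_num))
  · exact hf _ _ _ (dist_center_corner hne (by norm_num) (by norm_num))
  · exact hf _ _ _ (dist_center_corner hne (by norm_num) (by norm_num))

theorem disj (hf : WQS f H) {w w' : Fin n → Fin 8} (h : w ≠ w') :
    Disjoint (Metric.closedBall (f (zz w)) (RR f w / (3 * H)))
      (Metric.closedBall (f (zz w')) (RR f w' / (3 * H))) := by
  have hH := one_le_H hf
  refine Metric.closedBall_disjoint_closedBall ?_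
  have h1 := RR_le hf h
  have h2 := RR_le hf h.symm
  rw [dist_comm] at h2
  have hp := RR_pos f w
  have h3 : 0 < dist (f (zz w)) (f (zz w')) := by
    by_contra hc
    have : dist (f (zz w)) (f (zz w')) = 0 := le_antisymm (not_lt.1 hc) dist_nonneg
    rw [this, mul_zero] at h1
    linarith
  have e1 : RR f w / (3 * H) ≤ dist (f (zz w)) (f (zz w')) / 3 := by
    rw [div_le_div_iff₀ (by linarith) (by norm_num)]
    nlinarith
  have e2 : RR f w' / (3 * H) ≤ dist (f (zz w)) (f (zz w')) / 3 := by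
    rw [div_le_div_iff₀ (by linarith) (by norm_num)]
    nlinarith
  linarith

theorem RR_diam (hf : WQS f H) (w : Fin n → Fin 8) :
    RR f w / (3 * H) ≤ Metric.diam (Set.univ : Set X) := by
  have hH := one_le_H hf
  have h1 : RR f w ≤ Metric.diam (Set.univ : Set X) :=
    max_le (dist_le_diam hf _ _) (max_le (dist_le_diam hf _ _) (dist_le_diam hf _ _))
  have h2 := RR_pos f w
  rw [div_le_iff₀ (by linarith)]
  nlinarith

variable [MeasurableSpace X] [BorelSpace X]

theorem measure_sum (hf : WQS f H) {p C : ℝ} (hC : 1 ≤ C)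
    (hA : ∀ x : X, ∀ r : ℝ, 0 < r → r ≤ Metric.diam (Set.univ : Set X) →
      ENNReal.ofReal (C⁻¹ * r ^ p) ≤ Measure.hausdorffMeasure p (Metric.closedBall x r) ∧
      Measure.hausdorffMeasure p (Metric.closedBall x r) ≤ ENNReal.ofReal (C * r ^ p)) (n : ℕ) :
    ∑ w : Fin n → Fin 8, (RR f w / (3 * H)) ^ p ≤
      C * (C * Metric.diam (Set.univ : Set X) ^ p) := by
  have hH := one_le_H hf
  set Δ := Metric.diam (Set.univ : Set X) with hΔ
  have hΔ0 : 0 < Δ := (dist_p0_p1_pos f).trans_le (dist_le_diam hf _ _)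
  have hr0 : ∀ w : Fin n → Fin 8, 0 < RR f w / (3 * H) := fun w =>
    div_pos (RR_pos f w) (by linarith)
  have h1 : ∑ w : Fin n → Fin 8, ENNReal.ofReal (C⁻¹ * (RR f w / (3 * H)) ^ p) ≤
      ENNReal.ofReal (C * Δ ^ p) := by
    calc ∑ w : Fin n → Fin 8, ENNReal.ofReal (C⁻¹ * (RR f w / (3 * H)) ^ p)
        ≤ ∑ w : Fin n → Fin 8, Measure.hausdorffMeasure p
            (Metric.closedBall (f (zz w)) (RR f w / (3 * H))) :=
          Finset.sum_le_sum fun w _ => (hA _ _ (hr0 w) (RR_diam hf w)).1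
      _ = Measure.hausdorffMeasure p
            (⋃ w : Fin n → Fin 8, Metric.closedBall (f (zz w)) (RR f w / (3 * H))) := by
          rw [measure_iUnion (fun w w' h => disj hf h) (fun w => measurableSet_closedBall),
            tsum_fintype]
      _ ≤ Measure.hausdorffMeasure p (Metric.closedBall (f p0) Δ) :=
          measure_mono fun y _ => by
            rw [Metric.mem_closedBall]
            exact dist_le_diam hf _ _
      _ ≤ ENNReal.ofReal (C * Δ ^ p) := (hA _ _ hΔ0 le_rfl).2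
  rw [← ENNReal.ofReal_sum_of_nonneg (fun w _ => by have := hr0 w; positivity),
    ENNReal.ofReal_le_ofReal_iff (by positivity), ← Finset.mul_sum,
    inv_mul_le_iff₀ (by linarith)] at h1
  exact h1

/-- **Main theorem.** -/
theorem no_regular (hf : WQS f H) {p C : ℝ} (hp : p ≤ 87 / 50) (hC : 1 ≤ C)
    (hA : ∀ x : X, ∀ r : ℝ, 0 < r → r ≤ Metric.diam (Set.univ : Set X) →
      ENNReal.ofReal (C⁻¹ * r ^ p) ≤ Measure.hausdorffMeasure p (Metric.closedBall x r) ∧
      Measure.hausdorffMeasure p (Metric.closedBall x r) ≤ ENNReal.ofReal (C * r ^ p)) :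
    False := by
  have hH := one_le_H hf
  set Δ := Metric.diam (Set.univ : Set X) with hΔ
  have hΔ0 : 0 < Δ := (dist_p0_p1_pos f).trans_le (dist_le_diam hf _ _)
  set K1 : ℝ := C * (C * Δ ^ p) * Δ ^ (87 / 50 - p) with hK1
  have hK1' : 0 ≤ K1 := by positivity
  have hs : ∀ n : ℕ, ∑ w : Fin n → Fin 8, (RR f w / (3 * H)) ^ (87 / 50 : ℝ) ≤ K1 := by
    intro n
    refine le_trans ?_ (mul_le_mul_of_nonneg_right (measure_sum hf hC hA n)
      (by positivity : 0 ≤ Δ ^ (87 / 50 - p)))
    rw [Finset.sum_mul]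
    refine Finset.sum_le_sum fun w _ => ?_
    have hr : 0 < RR f w / (3 * H) := div_pos (RR_pos f w) (by linarith)
    have h1 : (RR f w / (3 * H)) ^ (87 / 50 - p) ≤ Δ ^ (87 / 50 - p) :=
      Real.rpow_le_rpow hr.le (RR_diam hf w) (by linarith)
    calc (RR f w / (3 * H)) ^ (87 / 50 : ℝ)
        = (RR f w / (3 * H)) ^ p * (RR f w / (3 * H)) ^ (87 / 50 - p) := by
          rw [← Real.rpow_add hr]
          congr 1
          ring
      _ ≤ _ := mul_le_mul_of_nonneg_left h1 (by positivity)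
  obtain ⟨K, θ, hK, hθ0, hθ1, hE⟩ := energy_bound'
  have hD : 0 < dist (f p0) (f p1) / (2 * H) := div_pos (dist_p0_p1_pos f) (by linarith)
  have hb : ∀ n : ℕ, dist (f p0) (f p1) / (2 * H) ≤
      6 * H * ((K * θ ^ n) ^ (37 / 87 : ℝ) * K1 ^ (50 / 87 : ℝ)) := by
    intro n
    have hpq : (87 / 37 : ℝ).HolderConjugate (87 / 50 : ℝ) := by
      rw [Real.holderConjugate_iff]
      norm_num
    have h1 := Real.inner_le_Lp_mul_Lq_of_nonneg (Finset.univ : Finset (Fin n → Fin 8)) hpq
      (f := fun w => tot (fl n w ⟨1, 0, 0⟩)) (g := fun w => RR f w / (3 * H))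
      (fun w _ => tot_nonneg _) (fun w _ => (div_pos (RR_pos f w) (by linarith)).le)
    have c1 : (1 / (87 / 37) : ℝ) = 37 / 87 := by norm_num
    have c2 : (1 / (87 / 50) : ℝ) = 50 / 87 := by norm_num
    rw [c1, c2] at h1
    have h2 := main_sum hf n
    have h3 : 2 * ∑ w : Fin n → Fin 8, tot (fl n w ⟨1, 0, 0⟩) * RR f w =
        6 * H * ∑ w : Fin n → Fin 8, tot (fl n w ⟨1, 0, 0⟩) * (RR f w / (3 * H)) := by
      rw [Finset.mul_sum, Finset.mul_sum]
      refine Finset.sum_congr rfl fun w _ => ?_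
      field_simp
      ring
    rw [h3] at h2
    refine h2.trans (mul_le_mul_of_nonneg_left (h1.trans ?_) (by linarith))
    have n1 : 0 ≤ ∑ w : Fin n → Fin 8, tot (fl n w ⟨1, 0, 0⟩) ^ (87 / 37 : ℝ) :=
      Finset.sum_nonneg fun w _ => Real.rpow_nonneg (tot_nonneg _) _
    have n2 : 0 ≤ ∑ w : Fin n → Fin 8, (RR f w / (3 * H)) ^ (87 / 50 : ℝ) :=
      Finset.sum_nonneg fun w _ =>
        Real.rpow_nonneg (div_pos (RR_pos f w) (by linarith)).le _
    exact mul_le_mul (Real.rpow_le_rpow n1 (hE n) (by norm_num))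
      (Real.rpow_le_rpow n2 (hs n) (by norm_num)) (Real.rpow_nonneg n2 _)
      (Real.rpow_nonneg (by positivity) _)
  have ht : Tendsto (fun n : ℕ => 6 * H * ((K * θ ^ n) ^ (37 / 87 : ℝ) * K1 ^ (50 / 87 : ℝ)))
      atTop (𝓝 (6 * H * ((K * 0) ^ (37 / 87 : ℝ) * K1 ^ (50 / 87 : ℝ)))) := by
    refine Tendsto.const_mul _ (Tendsto.mul_const _ ?_)
    exact ((tendsto_pow_atTop_nhds_zero_of_lt_one hθ0.le hθ1).const_mul K).rpow_const
      (Or.inr (by norm_num))
  rw [mul_zero, Real.zero_rpow (by norm_num), zero_mul, mul_zero] at ht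
  exact absurd (ge_of_tendsto' ht hb) (not_le.2 hD)

end

end Pool.Agent.Lib.MP_1d263a_an
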